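import Pool.Agent.H7.OPP.Stmts

/-!
# OPP module RR0: the star homomorphism `ρ_x`
-/

set_option autoImplicit false

open scoped Topology ComplexConjugate

namespace Pool.OPP

noncomputable section

theorem RR0_sum (F : JI → ℂ) : ∑ r ∈ JJ 0, F r = ∑ i : II, F (i, ∅) := by
  unfold JJ
  rw [Finset.sum_product]
  refine Finset.sum_congr rfl fun i _ => ?_
  simp

theorem RR0_mem (i : II) : ((i, ∅) : JI) ∈ JJ 0 := by
  unfold JJ
  simp

theorem RR0_mc_add (f g : BH) (s t : JI) : mc (f + g) s t = mc f s t + mc g s t := by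
  unfold mc
  rw [add_apply]
  rfl

theorem RR0_mc_smul (c : ℂ) (f : BH) (s t : JI) : mc (c • f) s t = c * mc f s t := by
  unfold mc
  rw [smul_apply]
  rfl

theorem RR0_mul_apply (b b' : BB) (x : SS) : (b * b') x = b x * b' x := rfl

theorem RR0_add_apply (b b' : BB) (x : SS) : (b + b') x = b x + b' x := rfl

theorem RR0_star_apply (b : BB) (x : SS) : (star b) x = star (b x) := rfl

theorem RR0_smul_apply (c : ℂ) (b : BB) (x : SS) : (c • b) x = c • b x := rfl

theorem sRr0 (hTH : STh) (hDIA : SDia) : SRr0 := by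
  intro θ x
  obtain ⟨h1, h2, h3⟩ := hTH θ
  obtain ⟨-, -, -, -, -, hPP, -, -, -, hst, hnorm, -, hmul, -⟩ := hDIA
  have hP := hPP 0
  refine ⟨?_, ?_, ?_, ?_, ?_⟩
  · intro b b' hb hb'
    obtain ⟨hbA, hbc⟩ := hb
    obtain ⟨hbA', hbc'⟩ := hb'
    obtain ⟨e1, e2⟩ := h2 b hbA b' hbA'
    refine ⟨?_, ⟨mul_mem hbA hbA', ?_⟩, ?_, ⟨add_mem hbA hbA', ?_⟩⟩
    · ext i j
      rw [Matrix.mul_apply]
      show mc (θ.th (b * b') x) (j, ∅) (i, ∅) =
        ∑ k : II, mc (θ.th b x) (k, ∅) (i, ∅) * mc (θ.th b' x) (j, ∅) (k, ∅)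
      rw [e1, RR0_mul_apply, hmul _ _ 0 _ _ (RR0_mem j) (RR0_mem i) hbc', RR0_sum]
      exact Finset.sum_congr rfl fun k _ => mul_comm _ _
    · rw [e1, RR0_mul_apply, ← mul_assoc, hbc', mul_assoc, hbc, mul_assoc]
    · ext i j
      unfold RR
      rw [e2, RR0_add_apply, RR0_mc_add]
      rfl
    · rw [e2, RR0_add_apply, mul_add, add_mul, hbc, hbc']
  · intro b hb
    obtain ⟨hbA, hbc⟩ := hb
    obtain ⟨-, -, e1, e2⟩ := h1 b hbA
    refine ⟨?_, ⟨star_mem hbA, ?_⟩, ?_⟩
    · ext i j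
      unfold RR
      rw [e1, RR0_star_apply, hst]
      rfl
    · rw [e1, RR0_star_apply]
      calc PP 0 * star (θ.th b x) = star (θ.th b x * PP 0) := by
            rw [star_mul, hP.1]
        _ = star (PP 0 * θ.th b x) := by rw [hbc]
        _ = star (θ.th b x) * PP 0 := by rw [star_mul, hP.1]
    · intro c
      refine ⟨?_, ⟨?_, ?_⟩⟩
      · ext i j
        unfold RR
        rw [e2, RR0_smul_apply, RR0_mc_smul]
        rfl
      · exact SMulMemClass.smul_mem c hbA
      · rw [e2, RR0_smul_apply, mul_smul_comm, smul_mul_assoc, hbc]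
  · refine ⟨⟨one_mem _, ?_⟩, ?_⟩
    · rw [h3]
      show PP 0 * (1 : BH) = (1 : BH) * PP 0
      rw [mul_one, one_mul]
    · ext i j
      unfold RR
      rw [h3]
      show mc (1 : BH) (j, ∅) (i, ∅) = _
      unfold mc bv
      rw [one_apply_eq_self, lp.single_apply, Matrix.one_apply]
      by_cases hij : i = j
      · subst hij
        simp
      · rw [if_neg hij, Pi.single_apply, if_neg]
        intro h
        exact hij (congrArg Prod.fst h).symm
  · intro b hb i j
    obtain ⟨-, e1, -, -⟩ := h1 b hb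
    calc ‖RR θ x b i j‖ ≤ ‖θ.th b x‖ := hnorm _ _ _
      _ ≤ ‖θ.th b‖ := ContinuousMap.norm_coe_le_norm _ _
      _ = ‖b‖ := e1
  · intro b b' hb hlim
    have hb'A : b' ∈ AA := by
      have hcl : IsClosed ((AA : StarSubalgebra ℂ BB) : Set BB) := instAAClosed
      exact hcl.mem_of_tendsto hlim (Filter.Eventually.of_forall fun n => (hb n).1)
    refine ⟨hb'A, ?_⟩
    have hlim2 : Filter.Tendsto (fun n => θ.th (b n)) Filter.atTop (𝓝 (θ.th b')) := by
      rw [tendsto_iff_norm_sub_tendsto_zero] at hlim ⊢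
      refine hlim.congr fun n => ?_
      have hmem : ((-1 : ℂ) • b') ∈ AA := SMulMemClass.smul_mem _ hb'A
      have e3 : θ.th (b n + (-1 : ℂ) • b') = θ.th (b n) + (-1 : ℂ) • θ.th b' := by
        rw [(h2 _ (hb n).1 _ hmem).2, (h1 b' hb'A).2.2.2]
      have e4 : b n + (-1 : ℂ) • b' = b n - b' := by
        rw [neg_one_smul, sub_eq_add_neg]
      have e5 : θ.th (b n) + (-1 : ℂ) • θ.th b' = θ.th (b n) - θ.th b' := by
        rw [neg_one_smul, sub_eq_add_neg]
      have e6 := (h1 (b n + (-1 : ℂ) • b') (add_mem (hb n).1 hmem)).2.1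
      rw [e3, e5, e4] at e6
      exact e6.symm
    have hev : Filter.Tendsto (fun n => θ.th (b n) x) Filter.atTop (𝓝 (θ.th b' x)) :=
      ((continuous_eval_const (F := BB) x).tendsto _).comp hlim2
    have hl : Filter.Tendsto (fun n => PP 0 * θ.th (b n) x) Filter.atTop
        (𝓝 (PP 0 * θ.th b' x)) := hev.const_mul _
    have hr : Filter.Tendsto (fun n => θ.th (b n) x * PP 0) Filter.atTop
        (𝓝 (θ.th b' x * PP 0)) := hev.mul_const _
    refine tendsto_nhds_unique hl ?_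
    refine hr.congr fun n => ?_
    exact (hb n).2.symm

end

end Pool.OPP
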